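import Pool.Agent.H282R3.SQ.Chord
import Pool.Agent.H282R3.SQ.Lines
import Pool.Agent.H282R3.SQ.Cluster
import Pool.Agent.H282R3.SQ.Area
import Pool.Agent.H282R3.SQ.Waste
import Pool.Agent.H282R3.SQ.Overlap
import Pool.Agent.H282R3.SQ.Sobolev
import Pool.Agent.H282R3.SQ.Window
import Pool.Agent.H282R3.SQ.Field
import Pool.Agent.H282R3.SQ.Energy
import Pool.Agent.H282R3.SQ.Main
import Pool.Agent.H282R3.SQ.Iso
import Pool.Agent.H282R3.SQ.Grid
import Pool.Agent.H282R3.SQ.Scale
import Pool.Agent.H282R3.SQ.Final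

/-!
# MP_1fa752_co, Q1: `P(n) ≥ n² + c √n`

`N(s)` (`Nc s`) is the least number of closed unit squares (images of `[0,1]²` under isometries of
the plane) that cover a closed square of side `s`, and `P(n)` (`P n`) is the minimum of `N(n+ε)`
over `ε > 0`, which is also the value of `N(n+ε)` for all small `ε > 0`.
There is a constant `c > 0` with `P(n) - n² ≥ c √n` for every positive integer `n`.
-/

namespace Pool.Agent.Results.MP_1fa752_co.SquareRootLowerBound

open H282R3.SQ

private theorem main (n N : ℕ) (Q : Fin N → USq) (h : Cov n Q) :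
    (n : ℝ) ≤ ((N : ℝ) - (n : ℝ) ^ 2) + 2 * (164 * (81 * C0 * ((N : ℝ) - (n : ℝ) ^ 2)) ^ 2 +
      162 * C0 ^ 2 * ((N : ℝ) - (n : ℝ) ^ 2)) := by
  have hO : Win.Overlap := ⟨fun n _ Q h z i j hij hi => overlap_orig n Q h z i j hij hi,
    fun n _ Q h z i c hc hout => overlap_cell n Q h z i c hc hout,
    fun c c' hc => overlap_cells c c' hc,
    fun n _ Q h z I hI => count_le n Q h z I hI⟩
  have hA : Win.Area := ⟨volume_C, convex_C, fun S hS hf z1 z2 z3 h1 h2 h3 =>
    tri_area S hS hf z1 z2 z3 h1 h2 h3⟩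
  have hC : Win.Cluster := fun M hM F S hS hcov τ h0 h1 htri A B hAS hBS =>
    cluster M hM F S hS hcov τ h0 h1 htri A B hAS hBS
  have hW : Win.WNonneg := fun n _ Q h c => w_nonneg n Q h c
  refine main_ineq_of n N Q h (lines_of chord_sum n N Q h)
    (exists_field_of n Q h (w_nonneg n Q h)
      (fun z hz i j hi hj => Win.orig_orig hW hC hA hO n Q h z hz i j hi hj)
      (fun z hz i hi c hc hout => Win.orig_cell hW hC hA hO n Q h z hz i hi c hc hout))
    (fun t ht0 hsupp ht => energy_of n Q t (w_nonneg n Q h) (sum_om_le n Q h)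
      (fun z I hI => count_le n Q h z I hI) ht0 hsupp ht)
    (fun t ht hsupp => sobolev n t ht hsupp) (sum_om_le n Q h)

/-- `P(n) = n² + Ω(√n)`: for every `n` the number `N(n+ε)` equals `P(n)` for all small `ε > 0`, and
there is `c > 0` with `c √n ≤ P(n) - n²` for all `n ≥ 1`. -/
theorem result :
    (∀ n : ℕ, ∃ δ : ℝ, 0 < δ ∧ ∀ ε : ℝ, 0 < ε → ε ≤ δ → Nc (n + ε) = P n) ∧
      ∃ c : ℝ, 0 < c ∧ ∀ n : ℕ, 1 ≤ n → c * Real.sqrt n ≤ (P n : ℝ) - (n : ℝ) ^ 2 :=
  final_result' exists_cover (fun n m hn ε hε h => scale' exists_USq n m hn ε hε h)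
    (fun n N Q h => by simpa using sum_w_le n Q h ∅) main

end Pool.Agent.Results.MP_1fa752_co.SquareRootLowerBound
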